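import Pool.Agent.H5.DK3

namespace Pool.Agent.Results.MP_ff2559_lc.Yes
open Pool.Agent.H5.DK

theorem result : ∀ k : ℕ, 2 ≤ k → ∀ (M : Type) [MetricSpace M] (s0 : St M k),
    ∃ A : List M → St M k, Online s0 A ∧ Competitive s0 A (2 * k - 1) :=
  fun _ hk _ _ s0 => main hk s0

end Pool.Agent.Results.MP_ff2559_lc.Yes
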